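import Pool.Agent.Helper10.SE.Defs7

/-!
# Project SE: fractions and cofactors in the ring `k[x, z]`
-/

universe u

namespace Pool.Agent.SE

open Polynomial

section lifts

theorem exists_lift88 {L : Type u} [Field L] (W : Subring L) {G : L[X]} (h : ∀ i, G.coeff i ∈ W) :
    ∃ GR : W[X], GR.map W.subtype = G := by
  have h1 : G ∈ Polynomial.lifts W.subtype := by
    rw [lifts_iff_coeff_lifts]
    intro i
    exact ⟨⟨_, h i⟩, rfl⟩
  exact (mem_lifts G).1 h1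

theorem exists_lift288 {k : Type u} [Field k] {L : Type u} [Field L] [Algebra k L] (W : Subring L)
    {G : k[X][X]} (h : ∀ i j, algebraMap k L ((G.coeff i).coeff j) ∈ W) :
    ∃ GR : W[X][X], GR.map (mapRingHom W.subtype) = G.map (mapRingHom (algebraMap k L)) := by
  have h1 : G.map (mapRingHom (algebraMap k L)) ∈ Polynomial.lifts (mapRingHom W.subtype) := by
    rw [lifts_iff_coeff_lifts]
    intro i
    rw [coeff_map, coe_mapRingHom]
    obtain ⟨g, hg⟩ := exists_lift88 W (G := (G.coeff i).map (algebraMap k L)) (fun j => by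
      rw [coeff_map]
      exact h i j)
    exact ⟨g, hg⟩
  exact (mem_lifts _).1 h1

end lifts

variable {k K : Type u} [Field k] [Field K] [Algebra k K]

/-- A nonzero value `G(x, z)` divides a nonzero `N(x)` in `k[x, z]`. -/
theorem exists_cofactor88 {x z : K} (hx : Transcendental k x) {Φ : k[X][X]} (hm : Φ.Monic)
    (h0 : ev2 x z Φ = 0) {G : k[X][X]} (hG : ev2 x z G ≠ 0) :
    ∃ (G' : k[X][X]) (N : k[X]), N ≠ 0 ∧ ev2 x z G * ev2 x z G' = aeval x N := by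
  let iA : Algebra k[X] K := (aeval x : k[X] →ₐ[k] K).toRingHom.toAlgebra
  have hA : algebraMap k[X] K = (aeval x : k[X] →ₐ[k] K).toRingHom := rfl
  have hev : ∀ F : k[X][X], ev2 x z F = aeval z F := fun F => rfl
  have hz : IsIntegral k[X] z := ⟨Φ, hm, h0⟩
  have hint : IsIntegral k[X] (ev2 x z G) := by
    rw [hev]
    exact adjoin_le_integralClosure hz (aeval_mem_adjoin_singleton _ _)
  obtain ⟨p₁, hp₁m, hp₁⟩ := hint
  have hp₁0 := hp₁m.ne_zero
  obtain ⟨p₂, hp₂⟩ : X ^ p₁.natTrailingDegree ∣ p₁ :=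
    X_pow_dvd_iff.2 fun i hi => coeff_eq_zero_of_lt_natTrailingDegree hi
  have hp₂0 : p₂.coeff 0 ≠ 0 := by
    have h1 : p₁.coeff p₁.natTrailingDegree ≠ 0 := trailingCoeff_nonzero_iff_nonzero.2 hp₁0
    have h2 : p₁.coeff p₁.natTrailingDegree = p₂.coeff 0 := by
      have h3 := coeff_X_pow_mul p₂ p₁.natTrailingDegree 0
      rwa [zero_add, ← hp₂] at h3
    rwa [h2] at h1
  have h2 : eval₂ (algebraMap k[X] K) (ev2 x z G) p₂ = 0 := by
    rw [hp₂, eval₂_mul, eval₂_pow, eval₂_X] at hp₁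
    exact (mul_eq_zero.1 hp₁).resolve_left (pow_ne_zero _ hG)
  have h3 : eval₂ (algebraMap k[X] K) (ev2 x z G) p₂.divX * ev2 x z G +
      aeval x (p₂.coeff 0) = 0 := by
    rw [← divX_mul_X_add p₂, eval₂_add, eval₂_mul, eval₂_X, eval₂_C] at h2
    exact h2
  refine ⟨-(eval₂ C G p₂.divX), p₂.coeff 0, hp₂0, ?_⟩
  have h4 : ev2 x z (eval₂ C G p₂.divX) = eval₂ (algebraMap k[X] K) (ev2 x z G) p₂.divX := by
    rw [hom_eval₂]
    congr 1
    ext c
    · simp [ev2, hA]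
    · simp [ev2, hA]
  rw [map_neg, h4]
  linear_combination -h3

/-- **Fractions**: each element of `K = k(x, z)` is a quotient `G(x, z) / D(x)`. -/
theorem exists_frac88 {x z : K} (hx : Transcendental k x) {Φ : k[X][X]} (hm : Φ.Monic)
    (h0 : ev2 x z Φ = 0) (hgen : IntermediateField.adjoin k {x, z} = ⊤) (y : K) :
    ∃ (G : k[X][X]) (D : k[X]), D ≠ 0 ∧ y * aeval x D = ev2 x z G := by
  have hC : ∀ F : k[X], ev2 x z (C F) = aeval x F := by
    intro F
    rw [ev2, coe_eval₂RingHom, eval₂_C]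
    rfl
  have hne : ∀ F : k[X], F ≠ 0 → aeval x F ≠ 0 := fun F hF h0 => hx ⟨F, hF, h0⟩
  have hy : y ∈ IntermediateField.adjoin k {x, z} := by
    rw [hgen]
    exact IntermediateField.mem_top
  induction hy using IntermediateField.adjoin_induction with
  | mem y hy =>
    rcases hy with rfl | hy
    · exact ⟨C X, 1, one_ne_zero, by rw [map_one, mul_one, hC, aeval_X]⟩
    · rw [Set.mem_singleton_iff] at hy
      subst hy
      exact ⟨X, 1, one_ne_zero, by rw [map_one, mul_one, ev2, coe_eval₂RingHom, eval₂_X]⟩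
  | algebraMap c =>
    exact ⟨C (C c), 1, one_ne_zero, by rw [map_one, mul_one, hC, aeval_C]⟩
  | add y₁ y₂ _ _ h₁ h₂ =>
    obtain ⟨G₁, D₁, hD₁, e₁⟩ := h₁
    obtain ⟨G₂, D₂, hD₂, e₂⟩ := h₂
    refine ⟨G₁ * C D₂ + G₂ * C D₁, D₁ * D₂, mul_ne_zero hD₁ hD₂, ?_⟩
    rw [map_add, map_mul, map_mul, map_mul, hC, hC, ← e₁, ← e₂]
    ring
  | inv y _ h₁ =>
    obtain ⟨G₁, D₁, hD₁, e₁⟩ := h₁
    by_cases hy0 : y = 0
    · exact ⟨0, 1, one_ne_zero, by rw [hy0, inv_zero, zero_mul, map_zero]⟩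
    have hG₁ : ev2 x z G₁ ≠ 0 := by
      rw [← e₁]
      exact mul_ne_zero hy0 (hne D₁ hD₁)
    obtain ⟨G', N, hN, h2⟩ := exists_cofactor88 hx hm h0 hG₁
    refine ⟨C D₁ * G', N, hN, ?_⟩
    rw [map_mul, hC, ← h2, ← e₁]
    field_simp
  | mul y₁ y₂ _ _ h₁ h₂ =>
    obtain ⟨G₁, D₁, hD₁, e₁⟩ := h₁
    obtain ⟨G₂, D₂, hD₂, e₂⟩ := h₂
    refine ⟨G₁ * G₂, D₁ * D₂, mul_ne_zero hD₁ hD₂, ?_⟩
    rw [map_mul, map_mul, ← e₁, ← e₂]
    ring

end Pool.Agent.SE
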