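import Pool.Agent.Helper88.SE.Loc
import Pool.Agent.Helper29.SE.FacW
import Pool.Agent.Helper88.SE.Frac
import Pool.Agent.Helper34.SE.PrimL
import Pool.Agent.Helper10.SE.Defs8

/-!
# Project SE, block CFVL
-/

universe u

set_option linter.unusedSectionVars false

namespace Pool.Agent.SE

open VC Polynomial Pool.Agent.LT Pool.Agent.SC Pool.Agent.GC Pool.Agent.Helper91.Sect Pool.Agent
  Pool.Agent.TWX Pool.Agent.TWT Pool.Agent.TWH Pool.Agent.Helper88.SE Pool.Agent.TWU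

section gen

variable {k K₁ : Type u} [Field k] [Field K₁] [Algebra k K₁]

theorem ev2_C88 (x z : K₁) (F : k[X]) : ev2 x z (C F) = aeval x F := by
  rw [ev2, coe_eval₂RingHom, eval₂_C]
  rfl

/-- The value of a residue map at a value of a polynomial. -/
theorem res_ev2 (P : Place k K₁) {x z₀ : P.ring} {L : Type u} [Field L] [Algebra k L]
    {ψ : P.ring →+* L} (hψ : ResMap P ψ) (F : k[X][X]) :
    ∃ y : P.ring, (y : K₁) = ev2 (x : K₁) (z₀ : K₁) F ∧ ψ y = ev2 (ψ x) (ψ z₀) F := by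
  let cP : k →+* P.ring := (algebraMap k K₁).codRestrict P.ring.toSubring P.algebraMap_mem
  let evP : k[X][X] →+* P.ring := eval₂RingHom (eval₂RingHom cP x) z₀
  refine ⟨evP F, ?_, ?_⟩
  · have h1 : P.ring.subtype.comp evP = ev2 (x : K₁) (z₀ : K₁) := by
      refine Polynomial.ringHom_ext' (Polynomial.ringHom_ext' ?_ ?_) ?_
      · ext c
        simp only [evP, ev2, RingHom.comp_apply, coe_eval₂RingHom, eval₂_C]
        change _ = aeval (x : K₁) (C c)
        rw [aeval_C]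
        rfl
      · simp only [evP, ev2, RingHom.comp_apply, coe_eval₂RingHom, eval₂_C, eval₂_X]
        change _ = aeval (x : K₁) X
        rw [aeval_X]
        rfl
      · simp only [evP, ev2, RingHom.comp_apply, coe_eval₂RingHom, eval₂_X]
        rfl
    exact RingHom.congr_fun h1 F
  · have h1 : ψ.comp evP = ev2 (ψ x) (ψ z₀) := by
      refine Polynomial.ringHom_ext' (Polynomial.ringHom_ext' ?_ ?_) ?_
      · ext c
        simp only [evP, ev2, RingHom.comp_apply, coe_eval₂RingHom, eval₂_C]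
        change _ = aeval (ψ x) (C c)
        rw [aeval_C]
        exact hψ.const c
      · simp only [evP, ev2, RingHom.comp_apply, coe_eval₂RingHom, eval₂_C, eval₂_X]
        change _ = aeval (ψ x) X
        rw [aeval_X]
      · simp only [evP, ev2, RingHom.comp_apply, coe_eval₂RingHom, eval₂_X]
    exact RingHom.congr_fun h1 F

/-- The evaluation at a point with coordinates in a smaller ring. -/
theorem ev0_ev2 {R L : Type u} [CommRing R] [Field L] [Algebra k L] {ρ : R →+* L} {ξ ζ : R}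
    {F : k[X][X]} {FR : R[X][X]}
    (hF : FR.map (mapRingHom ρ) = F.map (mapRingHom (algebraMap k L))) :
    ρ (evq0 ξ ζ FR) = ev2 (ρ ξ) (ρ ζ) F := by
  have h1 : ρ.comp (evq0 ξ ζ) = (evq0 (ρ ξ) (ρ ζ)).comp (mapRingHom (mapRingHom ρ)) := by
    refine Polynomial.ringHom_ext' (Polynomial.ringHom_ext' ?_ ?_) ?_
    · ext c
      simp [evq0]
    · simp [evq0]
    · simp [evq0]
  have h2 : (evq0 (ρ ξ) (ρ ζ)).comp (mapRingHom (mapRingHom (algebraMap k L))) =
      ev2 (ρ ξ) (ρ ζ) := by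
    refine Polynomial.ringHom_ext' (Polynomial.ringHom_ext' ?_ ?_) ?_
    · ext c
      simp only [evq0, ev2, RingHom.comp_apply, coe_eval₂RingHom, eval₂_C, coe_mapRingHom, map_C,
        coe_evalRingHom, eval_C]
      change _ = aeval (ρ ξ) (C c)
      rw [aeval_C]
    · simp only [evq0, ev2, RingHom.comp_apply, coe_eval₂RingHom, eval₂_C, coe_mapRingHom, map_C,
        coe_evalRingHom, eval_C, map_X, eval_X]
      change _ = aeval (ρ ξ) X
      rw [aeval_X]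
    · simp only [evq0, ev2, RingHom.comp_apply, coe_eval₂RingHom, eval₂_X, coe_mapRingHom,
        coe_evalRingHom, eval_C, map_X, eval_X]
  have h3 := RingHom.congr_fun h1 FR
  rw [RingHom.comp_apply, RingHom.comp_apply, coe_mapRingHom, hF] at h3
  rw [h3]
  exact RingHom.congr_fun h2 F

theorem val_unit88 {L : Type u} [Field L] {W : ValuationSubring L} {a : W.toSubring} :
    IsUnit a ↔ W.valuation (a : L) = 1 := by
  constructor
  · rintro ⟨t, rfl⟩
    have h1 : ((t : W.toSubring) : L) * (((t⁻¹ : (W.toSubring)ˣ) : W.toSubring) : L) = 1 := by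
      rw [← Subring.coe_mul, Units.mul_inv, Subring.coe_one]
    have h2 := congrArg W.valuation h1
    rw [map_mul, map_one] at h2
    have h3 := (W.valuation_le_one_iff ((t : W.toSubring) : L)).2 (t : W.toSubring).2
    have h4 := (W.valuation_le_one_iff (((t⁻¹ : (W.toSubring)ˣ) : W.toSubring) : L)).2
      ((t⁻¹ : (W.toSubring)ˣ) : W.toSubring).2
    refine le_antisymm h3 ?_
    rw [← h2]
    exact mul_le_of_le_one_right' h4
  · intro h
    have h0 : (a : L) ≠ 0 := by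
      intro h0
      rw [h0, map_zero] at h
      exact zero_ne_one h
    have h1 : (a : L)⁻¹ ∈ W.toSubring := by
      change (a : L)⁻¹ ∈ W
      rw [← W.valuation_le_one_iff, map_inv₀, h, inv_one]
    exact IsUnit.of_mul_eq_one ⟨_, h1⟩ (Subtype.ext (mul_inv_cancel₀ h0))

/-- The derivative of a lift. -/
theorem der_lift {R L : Type u} [CommRing R] [Field L] [Algebra k L] {ρ : R →+* L}
    {F : k[X][X]} {FR : R[X][X]}
    (hF : FR.map (mapRingHom ρ) = F.map (mapRingHom (algebraMap k L))) :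
    (derivative FR).map (mapRingHom ρ) = (derivative F).map (mapRingHom (algebraMap k L)) := by
  rw [← derivative_map, hF, derivative_map]

end gen

/-- **Block CFVL.** -/
theorem cfvl : StmtCFVL := by
  intro k K₁ _ _ _ _ hK₁ x z₀ htr hgen Φ hm hΦ f hf r G G' G'' N hGN hN0 hNr P₁ hxP hdu hfP e
  classical
  have hzP : z₀ ∈ P₁.ring := by
    let cP : k →+* P₁.ring := (algebraMap k K₁).codRestrict P₁.ring.toSubring P₁.algebraMap_mem
    let e1 : k[X] →+* P₁.ring := eval₂RingHom cP ⟨x, hxP⟩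
    have h1 : IsIntegral P₁.ring z₀ := by
      refine ⟨Φ.map e1, hm.map _, ?_⟩
      have h2 : (algebraMap P₁.ring K₁).comp e1 = (aeval x : k[X] →ₐ[k] K₁).toRingHom := by
        refine Polynomial.ringHom_ext' ?_ ?_
        · ext c
          simp only [e1, RingHom.comp_apply, coe_eval₂RingHom, eval₂_C]
          change _ = aeval x (C c)
          rw [aeval_C]
          rfl
        · simp only [e1, RingHom.comp_apply, coe_eval₂RingHom, eval₂_X]
          change _ = aeval x X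
          rw [aeval_X]
          rfl
      rw [eval₂_map, h2]
      exact hΦ
    obtain ⟨y, hy⟩ := IsIntegrallyClosed.isIntegral_iff.1 h1
    rw [← hy]
    exact y.2
  obtain ⟨xP, hxv⟩ : ∃ y : P₁.ring, (y : K₁) = x := ⟨⟨x, hxP⟩, rfl⟩
  obtain ⟨zP, hzv⟩ : ∃ y : P₁.ring, (y : K₁) = z₀ := ⟨⟨z₀, hzP⟩, rfl⟩
  subst hxv hzv
  -- facts on all residue maps
  have hΦψ : ∀ ψ : P₁.ring →+* AlgebraicClosure k, ResMap P₁ ψ → ev2 (ψ xP) (ψ zP) Φ = 0 := by
    intro ψ hψ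
    obtain ⟨y, hy, hy2⟩ := res_ev2 P₁ (x := xP) (z₀ := zP) hψ Φ
    rw [← hy2, show y = 0 from Subtype.ext (by rw [hy, hΦ]; rfl), map_zero]
  have hGe : ∀ s, ev2 (xP : K₁) (zP : K₁) (G s) * ev2 (xP : K₁) (zP : K₁) (G' s) =
      aeval (xP : K₁) (N s) := by
    intro s
    have h1 := congrArg (ev2 (xP : K₁) (zP : K₁)) (hGN s)
    rw [map_add, map_mul, map_mul, hΦ, zero_mul, add_zero, ev2_C88] at h1
    exact h1
  have hne : ∀ F : k[X], F ≠ 0 → aeval (xP : K₁) F ≠ 0 := fun F hF h0 => htr ⟨F, hF, h0⟩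
  have hg : ∀ s, ev2 (xP : K₁) (zP : K₁) (G s) ≠ 0 := by
    intro s h0
    apply hne _ (hN0 s)
    rw [← hGe, h0, zero_mul]
  obtain ⟨ψ₀, hψ₀⟩ := exists_resMap hK₁ P₁ (AlgebraicClosure k)
  have hξf : aeval (ψ₀ xP) f = 0 := (hψ₀.aeval xP f).2 hfP
  have hζΦ : ev2 (ψ₀ xP) (ψ₀ zP) Φ = 0 := hΦψ ψ₀ hψ₀
  obtain ⟨l, hl, hξl, hζl, hconj⟩ := exists_l hf hm hξf hζΦ
  set h : k[X] := minpoly k (ψ₀ xP) with hh
  have hint : IsIntegral k (ψ₀ xP) := Algebra.IsIntegral.isIntegral _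
  have hirr : Irreducible h := minpoly.irreducible hint
  have hmon : h.Monic := minpoly.monic hint
  have hsep : h.Separable := hirr.separable
  have hhP : aeval (xP : K₁) h ∈ P₁.ring.nonunits := (hψ₀.aeval xP h).1 (minpoly.aeval k _)
  have hhψ : ∀ ψ : P₁.ring →+* AlgebraicClosure k, ResMap P₁ ψ → aeval (ψ xP) h = 0 :=
    fun ψ hψ => (hψ.aeval xP h).2 hhP
  have hhf : h ∣ f := minpoly.dvd k _ hξf
  set π : K₁ := aeval (xP : K₁) h with hπ
  have hπ0 : π ≠ 0 := hne h hmon.ne_zero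
  obtain ⟨πP, hπv⟩ : ∃ y : P₁.ring, (y : K₁) = π := ⟨⟨π, ValuationSubring.nonunits_subset hhP⟩, rfl⟩
  have hψπ : ψ₀ πP = 0 := hψ₀.ker _ (by rw [hπv]; exact hhP)
  have hordpos : 0 < ord P₁.ring π := (nonunit_iff_ord hK₁ P₁ hπ0).1 hhP
  have hunit : ∀ (v : P₁.ring) (ψ : P₁.ring →+* AlgebraicClosure k), ResMap P₁ ψ → ψ v ≠ 0 →
      (v : K₁) ≠ 0 ∧ ord P₁.ring (v : K₁) = 0 := by
    intro v ψ hψ hv
    have h0 : (v : K₁) ≠ 0 := by
      intro h0
      apply hv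
      rw [show v = 0 from Subtype.ext h0, map_zero]
    have h1 := (mem_iff_ord hK₁ P₁ h0).1 v.2
    have h2 : ¬ 0 < ord P₁.ring (v : K₁) := fun h3 =>
      hv (hψ.ker _ ((nonunit_iff_ord hK₁ P₁ h0).2 h3))
    exact ⟨h0, by omega⟩
  have hdnz : ev2 (ψ₀ xP) (ψ₀ zP) (derivative Φ) ≠ 0 := by
    obtain ⟨y, hy, hy2⟩ := res_ev2 P₁ (x := xP) (z₀ := zP) hψ₀ (derivative Φ)
    rw [← hy2]
    intro h0
    apply hdu
    rw [← hy]
    exact (hψ₀.ker_iff y).1 h0
  -- the local form over the residue field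
  let F₀ : IntermediateField k (AlgebraicClosure k) := IntermediateField.adjoin k {ψ₀ xP, ψ₀ zP}
  have hF₀x : ψ₀ xP ∈ F₀ := IntermediateField.subset_adjoin _ _ (Set.mem_insert _ _)
  have hF₀z : ψ₀ zP ∈ F₀ := IntermediateField.subset_adjoin _ _ (Set.mem_insert_of_mem _ rfl)
  have hformk : ∀ H : k[X][X], ev2 (xP : K₁) (zP : K₁) H ≠ 0 → ∃ (d : ℕ) (v : P₁.ring),
      ψ₀ v ∈ F₀ ∧ ψ₀ v ≠ 0 ∧ ev2 (xP : K₁) (zP : K₁) H = v * π ^ d := by
    intro H hH
    obtain ⟨H', Nn, hNn, hHN⟩ := exists_cofactor88 htr hm hΦ hH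
    have hlift : ∀ F : k[X][X], (F.map (mapRingHom (algebraMap k F₀))).map
        (mapRingHom (algebraMap F₀ (AlgebraicClosure k))) =
          F.map (mapRingHom (algebraMap k (AlgebraicClosure k))) := by
      intro F
      rw [Polynomial.map_map, mapRingHom_comp, ← IsScalarTower.algebraMap_eq]
    have hlift1 : ∀ F : k[X], (F.map (algebraMap k F₀)).map
        (algebraMap F₀ (AlgebraicClosure k)) = F.map (algebraMap k (AlgebraicClosure k)) := by
      intro F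
      rw [Polynomial.map_map, ← IsScalarTower.algebraMap_eq]
    let ξR : F₀ := ⟨ψ₀ xP, hF₀x⟩
    let ζR : F₀ := ⟨ψ₀ zP, hF₀z⟩
    have hinj : Function.Injective (algebraMap F₀ (AlgebraicClosure k)) :=
      (algebraMap F₀ (AlgebraicClosure k)).injective
    have hu : IsUnit (evq0 ξR ζR (derivative (Φ.map (mapRingHom (algebraMap k F₀))))) := by
      rw [isUnit_iff_ne_zero]
      intro h0
      apply hdnz
      have h1 := ev0_ev2 (ρ := algebraMap F₀ (AlgebraicClosure k)) (ξ := ξR) (ζ := ζR)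
        (der_lift (hlift Φ))
      rw [h0, map_zero] at h1
      exact h1.symm
    obtain ⟨h₁, hh₁⟩ : (X - C ξR) ∣ h.map (algebraMap k F₀) := by
      rw [dvd_iff_isRoot, IsRoot.def]
      apply hinj
      rw [map_zero, ← eval₂_at_apply, eval₂_map, ← IsScalarTower.algebraMap_eq, ← aeval_def]
      exact minpoly.aeval k _
    have hh₁u : IsUnit (h₁.eval ξR) := by
      rw [isUnit_iff_ne_zero]
      intro h0
      obtain ⟨h₂, hh₂⟩ := dvd_iff_isRoot.2 h0
      have h3 : (h.map (algebraMap k F₀)).Separable := hsep.map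
      rw [hh₁, hh₂] at h3
      exact not_isUnit_X_sub_C ξR (h3.squarefree _ ⟨h₂, by rw [mul_assoc]⟩)
    have hNn0 : Nn.map (algebraMap k F₀) ≠ 0 :=
      (Polynomial.map_ne_zero_iff (algebraMap k F₀).injective).2 hNn
    obtain ⟨N₁, hN₁, hN₁u⟩ := exists_eq_pow_rootMultiplicity_mul_and_not_dvd _ hNn0 ξR
    obtain ⟨d, v, rr, hr, hψv, hv⟩ := loc_form P₁ hψ₀ htr hinj (ξ := ξR) (ζ := ζR) rfl rfl hΦ
      (hlift Φ) hu (h := h) (h₁ := h₁) (by
        rw [← hlift1, hh₁, Polynomial.map_mul, Polynomial.map_sub, map_X, map_C]) hh₁u hHN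
      (hlift H) (hlift H') (μ := (Nn.map (algebraMap k F₀)).rootMultiplicity ξR) (N₁ := N₁) (by
        rw [← hlift1]
        conv_lhs => rw [hN₁]
        rw [Polynomial.map_mul, Polynomial.map_pow, Polynomial.map_sub, map_X, map_C]) (by
        rw [isUnit_iff_ne_zero]
        exact fun h0 => hN₁u (dvd_iff_isRoot.2 h0))
    refine ⟨d, v, ?_, ?_, hv⟩
    · rw [hψv]
      exact rr.2
    · rw [hψv]
      exact fun h0 => hr.ne_zero (hinj (by rw [h0, map_zero]))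
  have hquot : ∀ y : K₁, y ≠ 0 → ∃ (d₁ d₂ : ℕ) (v₁ v₂ : P₁.ring), ψ₀ v₁ ∈ F₀ ∧ ψ₀ v₂ ∈ F₀ ∧
      ψ₀ v₁ ≠ 0 ∧ ψ₀ v₂ ≠ 0 ∧ y * (v₂ * π ^ d₂) = v₁ * π ^ d₁ ∧
      ord P₁.ring y + d₂ * ord P₁.ring π = d₁ * ord P₁.ring π := by
    intro y hy
    obtain ⟨Gy, Dy, hDy, hGy⟩ := exists_frac88 htr hm hΦ hgen y
    have hD2 : ev2 (xP : K₁) (zP : K₁) (C Dy) ≠ 0 := by
      rw [ev2_C88]
      exact hne Dy hDy
    have hG2 : ev2 (xP : K₁) (zP : K₁) Gy ≠ 0 := by
      rw [← hGy]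
      exact mul_ne_zero hy (hne Dy hDy)
    obtain ⟨d₁, v₁, h1, h2, h3⟩ := hformk Gy hG2
    obtain ⟨d₂, v₂, h4, h5, h6⟩ := hformk (C Dy) hD2
    rw [ev2_C88] at h6
    have h7 : y * (v₂ * π ^ d₂) = v₁ * π ^ d₁ := by rw [← h6, ← h3, hGy]
    refine ⟨d₁, d₂, v₁, v₂, h1, h4, h2, h5, h7, ?_⟩
    obtain ⟨h8, h9⟩ := hunit v₁ ψ₀ hψ₀ h2
    obtain ⟨h10, h11⟩ := hunit v₂ ψ₀ hψ₀ h5
    have h12 := congrArg (ord P₁.ring) h7
    rw [ord_mul' hK₁ P₁ hy (mul_ne_zero h10 (pow_ne_zero _ hπ0)),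
      ord_mul' hK₁ P₁ h10 (pow_ne_zero _ hπ0), ord_mul' hK₁ P₁ h8 (pow_ne_zero _ hπ0),
      ord_pow' hK₁ P₁ hπ0, ord_pow' hK₁ P₁ hπ0, h9, h11, zero_add, zero_add] at h12
    exact h12
  have hπ1 : ord P₁.ring π = 1 := by
    obtain ⟨π₁, hπ₁0, hπ₁1⟩ := exists_unif hK₁ P₁
    obtain ⟨d₁, d₂, v₁, v₂, -, -, -, -, -, h1⟩ := hquot π₁ hπ₁0
    rw [hπ₁1] at h1
    have h2 : ((d₁ : ℤ) - d₂) * ord P₁.ring π = 1 := by linear_combination -h1
    rcases Int.isUnit_iff.1 (IsUnit.of_mul_eq_one_right _ h2) with h3 | h3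
    · exact h3
    · omega
  -- the element which generates the residue field
  obtain ⟨θP, hθv⟩ : ∃ y : P₁.ring, (y : K₁) = (xP : K₁) + (l : K₁) * zP :=
    ⟨xP + (l : P₁.ring) * zP, by push_cast; rfl⟩
  have hψθ : ψ₀ θP = ψ₀ xP + (l : AlgebraicClosure k) * ψ₀ zP := by
    have h1 : θP = xP + (l : P₁.ring) * zP := Subtype.ext (by rw [hθv]; push_cast; rfl)
    rw [h1, map_add, map_mul, map_natCast]
  have hall : ∀ z ∈ P₁.ring, ∃ t : k[X],
      z - aeval ((xP : K₁) + (l : K₁) * zP) t ∈ P₁.ring.nonunits := by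
    intro z hz
    have hF₀le : F₀ ≤ IntermediateField.adjoin k {ψ₀ θP} := by
      rw [IntermediateField.adjoin_le_iff, hψθ]
      rintro y (rfl | rfl)
      · exact hξl
      · exact hζl
    have hmem : ψ₀ ⟨z, hz⟩ ∈ F₀ := by
      by_cases hz0 : z = 0
      · subst hz0
        rw [show (⟨0, hz⟩ : P₁.ring) = 0 from rfl, map_zero]
        exact F₀.zero_mem
      obtain ⟨d₁, d₂, v₁, v₂, h1, h2, h3, h4, h5, h6⟩ := hquot z hz0
      have h7 := (mem_iff_ord hK₁ P₁ hz0).1 hz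
      rw [hπ1, mul_one, mul_one] at h6
      have h8 : d₂ ≤ d₁ := by omega
      have h9 : (⟨z, hz⟩ : P₁.ring) * v₂ = v₁ * πP ^ (d₁ - d₂) := by
        apply Subtype.ext
        push_cast
        rw [hπv]
        apply mul_right_cancel₀ (pow_ne_zero d₂ hπ0)
        rw [mul_assoc, h5, mul_assoc, ← pow_add, Nat.sub_add_cancel h8]
      have h10 := congrArg ψ₀ h9
      rw [map_mul, map_mul, map_pow, hψπ] at h10
      have h11 : ψ₀ ⟨z, hz⟩ = ψ₀ v₁ * 0 ^ (d₁ - d₂) / ψ₀ v₂ := by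
        rw [← h10, mul_div_cancel_right₀ _ h4]
      rw [h11]
      exact F₀.div_mem (F₀.mul_mem h1 (pow_mem F₀.zero_mem _)) h2
    have hmem2 := hF₀le hmem
    have hal : IsAlgebraic k (ψ₀ θP) := Algebra.IsAlgebraic.isAlgebraic _
    rw [← IntermediateField.mem_toSubalgebra,
      IntermediateField.adjoin_simple_toSubalgebra_of_isAlgebraic hal,
      Algebra.adjoin_singleton_eq_range_aeval] at hmem2
    obtain ⟨t, ht⟩ := hmem2
    refine ⟨t, ?_⟩
    obtain ⟨y, hy, hy2⟩ := res_ev2 P₁ (x := θP) (z₀ := zP) hψ₀ (C t)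
    rw [ev2_C88] at hy hy2
    have h1 : ((⟨z, hz⟩ - y : P₁.ring) : K₁) = z - aeval ((xP : K₁) + (l : K₁) * zP) t := by
      push_cast
      rw [hy, hθv]
    rw [← h1]
    apply (hψ₀.ker_iff _).1
    rw [map_sub, hy2, sub_eq_zero]
    exact ht.symm
  have hq : Irreducible (minpoly k (ψ₀ xP + (l : AlgebraicClosure k) * ψ₀ zP)) :=
    minpoly.irreducible (Algebra.IsIntegral.isIntegral _)
  have hqθ : aeval ((xP : K₁) + (l : K₁) * zP)
      (minpoly k (ψ₀ xP + (l : AlgebraicClosure k) * ψ₀ zP)) ∈ P₁.ring.nonunits := by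
    rw [← hθv, ← hψ₀.aeval, hψθ]
    exact minpoly.aeval k _
  obtain ⟨p, hp1, hp2⟩ := pdata_prod hK₁ P₁ (by rw [← hθv]; exact θP.2) hq hqθ hall hπ0 hπ1 hg e
  refine ⟨l, π, _, p, hl, hp1, hconj, ?_⟩
  intro W hfW hfl hfd hNW hNl hΦW hGW hG'W hG''W hdW
  refine hp2 (AlgebraicClosure k) W ?_
  intro ψ hψ s z hz
  have hψf : aeval (ψ xP) f = 0 := (hψ.aeval xP f).2 hfP
  obtain ⟨hξW, N₁, hN₁W, hN₁, hN₁u⟩ := exists_fac hfW hfl hfd hψf (hN0 s) (hNl s) (hNr s)
  obtain ⟨-, h₁, hh₁W, hh₁, hh₁u⟩ := exists_fac hfW hfl hfd hψf hmon.ne_zero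
    (by rw [hmon.leadingCoeff, map_one, map_one]) (fun c hc => by
      obtain ⟨t, ht⟩ := hhf
      rw [ht, map_mul, hc, zero_mul])
  have hζW := coeff_root_mem hfW hfl hfd hψf hm hΦW (hΦψ ψ hψ)
  have hmult : (h.map (algebraMap k (AlgebraicClosure k))).rootMultiplicity (ψ xP) = 1 := by
    apply le_antisymm (rootMultiplicity_le_one_of_separable hsep.map _)
    rw [Nat.one_le_iff_ne_zero, ← Nat.pos_iff_ne_zero, rootMultiplicity_pos
      ((Polynomial.map_ne_zero_iff (algebraMap k (AlgebraicClosure k)).injective).2 hmon.ne_zero),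
      IsRoot.def, eval_map_algebraMap]
    exact hhψ ψ hψ
  rw [hmult, pow_one] at hh₁
  obtain ⟨ΦR, hΦR⟩ := exists_lift288 W.toSubring hΦW
  obtain ⟨GR, hGR⟩ := exists_lift288 W.toSubring (hGW s)
  obtain ⟨GR', hGR'⟩ := exists_lift288 W.toSubring (hG'W s)
  obtain ⟨NR, hNR⟩ := exists_lift88 W.toSubring hN₁W
  obtain ⟨hR, hhR⟩ := exists_lift88 W.toSubring hh₁W
  let ξR : W.toSubring := ⟨ψ xP, hξW⟩
  let ζR : W.toSubring := ⟨ψ zP, hζW⟩
  have hinj : Function.Injective W.toSubring.subtype := Subtype.coe_injective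
  have hu : IsUnit (evq0 ξR ζR (derivative ΦR)) := by
    rw [val_unit88]
    have h1 := ev0_ev2 (ρ := W.toSubring.subtype) (ξ := ξR) (ζ := ζR) (der_lift hΦR)
    obtain ⟨y, hy, hy2⟩ := res_ev2 P₁ (x := xP) (z₀ := zP) hψ (derivative Φ)
    have h2 := hdW ψ hψ y hy
    rw [hy2] at h2
    change W.valuation (W.toSubring.subtype (evq0 ξR ζR (derivative ΦR))) = 1
    rw [h1]
    exact h2
  have hev : ∀ (F : W.toSubring[X]) (F' : (AlgebraicClosure k)[X]),
      F.map W.toSubring.subtype = F' → W.valuation (F'.eval (ψ xP)) = 1 → IsUnit (F.eval ξR) := by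
    intro F F' hF hF'
    rw [val_unit88]
    have h1 : F'.eval (ψ xP) = W.toSubring.subtype (F.eval ξR) := by
      rw [← hF, eval_map, ← eval₂_at_apply]
      rfl
    rw [h1] at hF'
    exact hF'
  obtain ⟨d, v, rr, hr, hψv, hv⟩ := loc_form P₁ hψ htr hinj (ξ := ξR) (ζ := ζR) rfl rfl hΦ hΦR hu
    (h := h) (h₁ := hR) (by rw [hhR]; exact hh₁) (hev hR h₁ hhR hh₁u) (hGe s) hGR hGR'
    (N₁ := NR) (by rw [hNR]; exact hN₁) (hev NR N₁ hNR hN₁u)
  have hv0 : ψ v ≠ 0 := by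
    rw [hψv]
    exact fun h0 => hr.ne_zero (hinj (by rw [h0, map_zero]))
  obtain ⟨h1, h2⟩ := hunit v ψ hψ hv0
  have h3 : ord P₁.ring (ev2 (xP : K₁) (zP : K₁) (G s)) = d := by
    rw [hv, ord_mul' hK₁ P₁ h1 (pow_ne_zero _ hπ0), ord_pow' hK₁ P₁ hπ0, h2, hπ1]
    ring
  have h4 : z = v := by
    apply Subtype.ext
    rw [hz, h3, hv, zpow_neg, zpow_natCast, mul_assoc, mul_inv_cancel₀ (pow_ne_zero _ hπ0), mul_one]
  rw [h4, hψv]
  exact val_unit88.1 hr

end Pool.Agent.SE
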