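import Mathlib

/-!
# Project SE, block CFV, part 1: the local algebra of an etale point of a plane curve
-/

universe u

namespace Pool.Agent.Helper88.SE

open Polynomial TensorProduct

/-- An extension of a `k`-algebra `A` with a residue map `ψ : A → L` by the constants `L`. -/
theorem exists_dom {k A L : Type u} [Field k] [CommRing A] [IsDomain A] [Algebra k A] [Field L]
    [Algebra k L] (ψ : A →ₐ[k] L) :
    ∃ (S : Type u) (_ : CommRing S) (_ : IsDomain S) (i : A →+* S) (j : L →+* S) (res : S →+* L),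
      Function.Injective i ∧ (∀ a, res (i a) = ψ a) ∧ (∀ c, res (j c) = c) ∧
      ∀ c : k, i (algebraMap k A c) = j (algebraMap k L c) := by
  let φ : A ⊗[k] L →ₐ[k] L := Algebra.TensorProduct.lift ψ (AlgHom.id k L) (fun _ _ => Commute.all _ _)
  let M : Ideal (A ⊗[k] L) := RingHom.ker φ
  have hM : M.IsPrime := RingHom.ker_isPrime φ
  obtain ⟨q, hq, hqM⟩ := Ideal.exists_minimalPrimes_le (bot_le : (⊥ : Ideal (A ⊗[k] L)) ≤ M)
  have hqp : q.IsPrime := hq.1.1
  let i : A →+* (A ⊗[k] L) ⧸ q := (Ideal.Quotient.mk q).comp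
    (Algebra.TensorProduct.includeLeft : A →ₐ[k] A ⊗[k] L).toRingHom
  let j : L →+* (A ⊗[k] L) ⧸ q := (Ideal.Quotient.mk q).comp
    (Algebra.TensorProduct.includeRight : L →ₐ[k] A ⊗[k] L).toRingHom
  let res : (A ⊗[k] L) ⧸ q →+* L := Ideal.Quotient.lift q φ.toRingHom fun a ha => hqM ha
  refine ⟨(A ⊗[k] L) ⧸ q, inferInstance, Ideal.Quotient.isDomain q, i, j, res, ?_, ?_, ?_, ?_⟩
  · rw [injective_iff_map_eq_zero]
    intro a ha
    by_contra h0
    have h1 : (a ⊗ₜ[k] (1 : L)) ∈ q := Ideal.Quotient.eq_zero_iff_mem.1 ha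
    have h2 : (a ⊗ₜ[k] (1 : L)) ∈ nonZeroDivisors (A ⊗[k] L) := by
      have h3 : Function.Injective (LinearMap.mulLeft k a) := by
        intro b c hbc
        exact mul_left_cancel₀ h0 hbc
      have h4 := Module.Flat.rTensor_preserves_injective_linearMap (M := L) _ h3
      have h5 : ∀ t : A ⊗[k] L, (LinearMap.mulLeft k a).rTensor L t = (a ⊗ₜ[k] (1 : L)) * t := by
        intro t
        induction t with
        | zero => simp
        | tmul b c => simp [Algebra.TensorProduct.tmul_mul_tmul]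
        | add s t hs ht => rw [map_add, hs, ht, mul_add]
      rw [mem_nonZeroDivisors_iff_right]
      intro t ht
      apply h4
      rw [map_zero, h5, mul_comm, ht]
    exact (Set.disjoint_left.1 (Ideal.disjoint_nonZeroDivisors_of_mem_minimalPrimes hq)) h1 h2
  · intro a
    change φ (a ⊗ₜ[k] (1 : L)) = ψ a
    simp [φ]
  · intro c
    change φ ((1 : A) ⊗ₜ[k] c) = c
    simp [φ]
  · intro c
    change Ideal.Quotient.mk q ((algebraMap k A c) ⊗ₜ[k] (1 : L)) =
      Ideal.Quotient.mk q ((1 : A) ⊗ₜ[k] (algebraMap k L c))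
    congr 1
    rw [Algebra.algebraMap_eq_smul_one, Algebra.algebraMap_eq_smul_one, TensorProduct.smul_tmul]

section local_algebra

variable {R S κ : Type*} [CommRing R] [CommRing S] [Field κ]

/-- The evaluation of a polynomial in two variables. -/
noncomputable def evq (j : R →+* S) (x z : S) : R[X][X] →+* S := eval₂RingHom (eval₂RingHom j x) z

/-- The evaluation at a point of the base. -/
noncomputable def evq0 (ξ ζ : R) : R[X][X] →+* R := (evalRingHom ξ).comp (evalRingHom (C ζ))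

theorem res_ev (j : R →+* S) (res : S →+* κ) {x z : S} {ξ ζ : R} (hx : res x = res (j ξ))
    (hz : res z = res (j ζ)) (G : R[X][X]) : res (evq j x z G) = res (j (evq0 ξ ζ G)) := by
  have h : res.comp (evq j x z) = (res.comp j).comp (evq0 ξ ζ) := by
    refine Polynomial.ringHom_ext' (Polynomial.ringHom_ext' ?_ ?_) ?_
    · ext r
      simp [evq, evq0]
    · simp [evq, evq0, hx]
    · simp [evq, evq0, hz]
  exact RingHom.congr_fun h G

theorem dec {ξ ζ : R} {G : R[X][X]} (h : evq0 ξ ζ G = 0) :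
    ∃ (G₁ : R[X]) (G₂ : R[X][X]), G = C ((X - C ξ) * G₁) + (X - C (C ζ)) * G₂ := by
  obtain ⟨G₂, h2⟩ := X_sub_C_dvd_sub_C_eval (a := C ζ) (p := G)
  have h3 : (X - C ξ) ∣ eval (C ζ) G := dvd_iff_isRoot.2 h
  obtain ⟨G₁, h1⟩ := h3
  refine ⟨G₁, G₂, ?_⟩
  rw [← h1, ← h2]
  ring

variable {j : R →+* S} {res : S →+* κ} {x z : S} {ξ ζ : R}

/-- Lemma 1. -/
theorem lem1 (hinj : Function.Injective (res.comp j)) (hx : res x = res (j ξ))
    (hz : res z = res (j ζ)) {Φ : R[X][X]} (hΦ : evq j x z Φ = 0) :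
    ∃ Ψ : R[X][X], evq0 ξ ζ Ψ = evq0 ξ ζ (derivative Φ) ∧
      ∀ G : R[X][X], evq0 ξ ζ G = 0 → ∃ G₁ : R[X][X],
        evq j x z G * evq j x z Ψ = (x - j ξ) * evq j x z G₁ := by
  have h0 : evq0 ξ ζ Φ = 0 := by
    apply hinj
    rw [map_zero, RingHom.comp_apply, ← res_ev j res hx hz, hΦ, map_zero]
  obtain ⟨Φ₁, Ψ, h1⟩ := dec h0
  have hX : evq j x z (C (X - C ξ)) = x - j ξ := by simp [evq]
  have hZ : evq j x z (X - C (C ζ)) = z - j ζ := by simp [evq]
  have h2 : (x - j ξ) * evq j x z (C Φ₁) + (z - j ζ) * evq j x z Ψ = 0 := by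
    have h3 := congrArg (evq j x z) h1
    rw [hΦ, C_mul, map_add, map_mul, map_mul, hX, hZ] at h3
    exact h3.symm
  refine ⟨Ψ, ?_, ?_⟩
  · rw [h1]
    simp [evq0]
  · intro G hG
    obtain ⟨g, G₂, h3⟩ := dec hG
    refine ⟨C g * Ψ - C Φ₁ * G₂, ?_⟩
    rw [h3, C_mul, map_add, map_mul, map_mul, hX, hZ, map_sub, map_mul, map_mul]
    linear_combination (evq j x z G₂) * h2

variable [IsDomain R] [IsDomain S]

/-- Lemma 2. -/
theorem lem2 (hinj : Function.Injective (res.comp j)) (hx : res x = res (j ξ))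
    (hz : res z = res (j ζ)) (hxξ : x ≠ j ξ) {Φ : R[X][X]} (hΦ : evq j x z Φ = 0)
    (hu : IsUnit (evq0 ξ ζ (derivative Φ))) (μ : ℕ) :
    ∀ (G G' w : R[X][X]), evq j x z G * evq j x z G' = (x - j ξ) ^ μ * evq j x z w →
      IsUnit (evq0 ξ ζ w) →
      ∃ (d : ℕ) (H G₁ : R[X][X]), IsUnit (evq0 ξ ζ H) ∧ IsUnit (evq0 ξ ζ G₁) ∧
        evq j x z G * evq j x z H = (x - j ξ) ^ d * evq j x z G₁ := by
  obtain ⟨Ψ, hΨ, hl⟩ := lem1 hinj hx hz hΦ
  rw [← hΨ] at hu
  have hne : x - j ξ ≠ 0 := sub_ne_zero.2 hxξ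
  have hr : ∀ G : R[X][X], evq j x z G = 0 → evq0 ξ ζ G = 0 := by
    intro G hG
    apply hinj
    rw [map_zero, RingHom.comp_apply, ← res_ev j res hx hz, hG, map_zero]
  induction μ with
  | zero =>
    intro G G' w h hw
    have h1 : evq0 ξ ζ (G * G' - w) = 0 := by
      apply hr
      rw [map_sub, map_mul, h, pow_zero, one_mul, sub_self]
    rw [map_sub, map_mul, sub_eq_zero] at h1
    refine ⟨0, 1, G, by simp, ?_, by simp⟩
    rw [← h1] at hw
    exact isUnit_of_mul_isUnit_left hw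
  | succ μ ih =>
    intro G G' w h hw
    have h1 : evq0 ξ ζ G * evq0 ξ ζ G' = 0 := by
      apply hinj
      rw [map_zero, RingHom.comp_apply, ← map_mul, ← res_ev j res hx hz, map_mul, h, map_mul,
        map_pow, map_sub, hx, sub_self, zero_pow (Nat.succ_ne_zero μ), zero_mul]
    rcases mul_eq_zero.1 h1 with h2 | h2
    · obtain ⟨G₁, h3⟩ := hl G h2
      have h4 : evq j x z G₁ * evq j x z G' = (x - j ξ) ^ μ * evq j x z (w * Ψ) := by
        apply mul_left_cancel₀ hne
        rw [map_mul]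
        linear_combination (-evq j x z G') * h3 + (evq j x z Ψ) * h
      obtain ⟨d, H, G₂, h5, h6, h7⟩ := ih G₁ G' (w * Ψ) h4 (by rw [map_mul]; exact hw.mul hu)
      refine ⟨d + 1, H * Ψ, G₂, by rw [map_mul]; exact h5.mul hu, h6, ?_⟩
      rw [map_mul, pow_succ]
      linear_combination (evq j x z H) * h3 + (x - j ξ) * h7
    · obtain ⟨G₁, h3⟩ := hl G' h2
      have h4 : evq j x z G * evq j x z G₁ = (x - j ξ) ^ μ * evq j x z (w * Ψ) := by
        apply mul_left_cancel₀ hne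
        rw [map_mul]
        linear_combination (-evq j x z G) * h3 + (evq j x z Ψ) * h
      exact ih G G₁ (w * Ψ) h4 (by rw [map_mul]; exact hw.mul hu)

end local_algebra

end Pool.Agent.Helper88.SE
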