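import Pool.Agent.Helper29.SE.CFB
import Pool.Agent.Helper10.SE.Defs7
import Pool.Agent.Helper88.SE.Dom

/-!
# Project SE, block CFV, part 2: functions on a plane curve near an etale point
-/

universe u

set_option linter.unusedSectionVars false

namespace Pool.Agent.SE

open VC Polynomial Pool.Agent.LT Pool.Agent.SC Pool.Agent.GC Pool.Agent.Helper91.Sect Pool.Agent
  Pool.Agent.TWX Pool.Agent.TWT Pool.Agent.TWH Pool.Agent.Helper88.SE

section loc

variable {k K₁ : Type u} [Field k] [Field K₁] [Algebra k K₁]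

/-- The local form of a function `G(x, z₀)` over a ring `R` of constants. -/
theorem loc_form (P : Place k K₁) {x z₀ : P.ring} {ψ : P.ring →+* AlgebraicClosure k}
    (hψ : ResMap P ψ) (htr : Transcendental k (x : K₁))
    {R : Type u} [CommRing R] [IsDomain R] {ρ : R →+* AlgebraicClosure k}
    (hρ : Function.Injective ρ) {ξ ζ : R} (hξ : ρ ξ = ψ x) (hζ : ρ ζ = ψ z₀)
    {Φ : k[X][X]} (hΦ : ev2 (x : K₁) (z₀ : K₁) Φ = 0) {ΦR : R[X][X]}
    (hΦR : ΦR.map (mapRingHom ρ) = Φ.map (mapRingHom (algebraMap k (AlgebraicClosure k))))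
    (hu : IsUnit (evq0 ξ ζ (derivative ΦR)))
    {h : k[X]} {h₁ : R[X]}
    (hh : h.map (algebraMap k (AlgebraicClosure k)) = (X - C (ρ ξ)) * h₁.map ρ)
    (hh1 : IsUnit (h₁.eval ξ))
    {G G' : k[X][X]} {N : k[X]}
    (hGN : ev2 (x : K₁) (z₀ : K₁) G * ev2 (x : K₁) (z₀ : K₁) G' = aeval (x : K₁) N)
    {GR GR' : R[X][X]}
    (hGR : GR.map (mapRingHom ρ) = G.map (mapRingHom (algebraMap k (AlgebraicClosure k))))
    (hGR' : GR'.map (mapRingHom ρ) = G'.map (mapRingHom (algebraMap k (AlgebraicClosure k))))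
    {μ : ℕ} {N₁ : R[X]}
    (hN1 : N.map (algebraMap k (AlgebraicClosure k)) = (X - C (ρ ξ)) ^ μ * N₁.map ρ)
    (hN1u : IsUnit (N₁.eval ξ)) :
    ∃ (d : ℕ) (v : P.ring) (r : R), IsUnit r ∧ ψ v = ρ r ∧
      ev2 (x : K₁) (z₀ : K₁) G = v * (aeval (x : K₁) h) ^ d := by
  let iR : Algebra k P.ring :=
    ((algebraMap k K₁).codRestrict P.ring.toSubring P.algebraMap_mem).toAlgebra
  have sR : IsScalarTower k P.ring K₁ := IsScalarTower.of_algebraMap_eq fun _ => rfl
  let ψA : P.ring →ₐ[k] AlgebraicClosure k := { ψ with commutes' := hψ.const }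
  obtain ⟨S, _, _, i, jL, res, hi, hresi, hresj, hc⟩ := exists_dom ψA
  have hresi' : ∀ a, res (i a) = ψ a := hresi
  let j : R →+* S := jL.comp ρ
  have hinj : Function.Injective (res.comp j) := by
    intro a b hab
    apply hρ
    simpa [j, hresj] using hab
  -- the evaluation in the ring of the place
  let evP : k[X][X] →+* P.ring := eval₂RingHom (eval₂RingHom (algebraMap k P.ring) x) z₀
  have hevP : ∀ F : k[X][X], ((evP F : P.ring) : K₁) = ev2 (x : K₁) (z₀ : K₁) F := by
    intro F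
    have h1 : P.ring.subtype.comp evP = ev2 (x : K₁) (z₀ : K₁) := by
      refine Polynomial.ringHom_ext' (Polynomial.ringHom_ext' ?_ ?_) ?_
      · ext c
        simp only [evP, ev2, RingHom.comp_apply, coe_eval₂RingHom, eval₂_C]
        change _ = aeval (x : K₁) (C c)
        rw [aeval_C]
        rfl
      · simp only [evP, ev2, RingHom.comp_apply, coe_eval₂RingHom, eval₂_C, eval₂_X]
        change _ = aeval (x : K₁) X
        rw [aeval_X]
        rfl
      · simp only [evP, ev2, RingHom.comp_apply, coe_eval₂RingHom, eval₂_X]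
        rfl
    exact RingHom.congr_fun h1 F
  have hcompat : ∀ (F : k[X][X]) (FR : R[X][X]),
      FR.map (mapRingHom ρ) = F.map (mapRingHom (algebraMap k (AlgebraicClosure k))) →
      evq j (i x) (i z₀) FR = i (evP F) := by
    intro F FR hF
    have h1 : evq j (i x) (i z₀) = (evq jL (i x) (i z₀)).comp (mapRingHom (mapRingHom ρ)) := by
      refine Polynomial.ringHom_ext' (Polynomial.ringHom_ext' ?_ ?_) ?_
      · ext c
        simp [evq, j]
      · simp [evq]
      · simp [evq]
    have h2 : (evq jL (i x) (i z₀)).comp (mapRingHom (mapRingHom (algebraMap k (AlgebraicClosure k)))) =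
        i.comp evP := by
      refine Polynomial.ringHom_ext' (Polynomial.ringHom_ext' ?_ ?_) ?_
      · ext c
        simp [evq, evP, hc]
      · simp [evq, evP]
      · simp [evq, evP]
    have h3 := RingHom.congr_fun h1 FR
    rw [RingHom.comp_apply, coe_mapRingHom, hF] at h3
    rw [h3]
    exact RingHom.congr_fun h2 F
  have hcompC : ∀ (F : k[X]) (FR : R[X]),
      FR.map ρ = F.map (algebraMap k (AlgebraicClosure k)) →
      evq j (i x) (i z₀) (C FR) = i (evP (C F)) := by
    intro F FR hF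
    refine hcompat _ _ ?_
    rw [map_C, map_C, coe_mapRingHom, coe_mapRingHom, hF]
  have hevC : ∀ F : k[X], ((evP (C F) : P.ring) : K₁) = aeval (x : K₁) F := by
    intro F
    rw [hevP, ev2, coe_eval₂RingHom, eval₂_C]
    rfl
  have hxξ : i x ≠ j ξ := by
    intro h0
    obtain ⟨p, hp0, hp⟩ := Algebra.IsAlgebraic.isAlgebraic (R := k) (ρ ξ)
    apply htr
    refine ⟨p, hp0, ?_⟩
    have h1 : i (evP (C p)) = 0 := by
      have h2 : (evq jL (i x) (i z₀)) (C (p.map (algebraMap k (AlgebraicClosure k)))) = i (evP (C p)) := by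
        have h3 : (evq jL (i x) (i z₀)).comp (mapRingHom (mapRingHom (algebraMap k (AlgebraicClosure k)))) =
            i.comp evP := by
          refine Polynomial.ringHom_ext' (Polynomial.ringHom_ext' ?_ ?_) ?_
          · ext c
            simp [evq, evP, hc]
          · simp [evq, evP]
          · simp [evq, evP]
        have h4 := RingHom.congr_fun h3 (C p)
        rw [RingHom.comp_apply, coe_mapRingHom, map_C, coe_mapRingHom] at h4
        exact h4
      rw [← h2, evq, coe_eval₂RingHom, eval₂_C, coe_eval₂RingHom, h0]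
      change eval₂ jL (jL (ρ ξ)) _ = 0
      rw [eval₂_at_apply, eval_map_algebraMap, hp, map_zero]
    rw [← hevC, (map_eq_zero_iff i hi).1 h1]
    rfl
  have hx1 : res (i x) = res (j ξ) := by
    rw [hresi', ← hξ]
    exact (hresj _).symm
  have hz1 : res (i z₀) = res (j ζ) := by
    rw [hresi', ← hζ]
    exact (hresj _).symm
  have hcj : ∀ r : R, res (j r) = ρ r := fun r => hresj _
  have hΦS : evq j (i x) (i z₀) ΦR = 0 := by
    rw [hcompat Φ ΦR hΦR]
    have h1 : evP Φ = 0 := Subtype.ext (by rw [hevP, hΦ]; rfl)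
    rw [h1, map_zero]
  -- the factors of `h` and `N`
  have hlin : evq j (i x) (i z₀) (C (X - C ξ)) = i x - j ξ := by simp [evq]
  have hπS : i (evP (C h)) = (i x - j ξ) * evq j (i x) (i z₀) (C h₁) := by
    rw [← hcompC h ((X - C ξ) * h₁), C_mul, map_mul, hlin]
    rw [Polynomial.map_mul, Polynomial.map_sub, map_X, map_C, hh]
  have hNS : i (evP (C N)) = (i x - j ξ) ^ μ * evq j (i x) (i z₀) (C N₁) := by
    rw [← hcompC N ((X - C ξ) ^ μ * N₁), C_mul, map_mul, C_pow, map_pow, hlin]
    rw [Polynomial.map_mul, Polynomial.map_pow, Polynomial.map_sub, map_X, map_C, hN1]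
  have hGS : evq j (i x) (i z₀) GR * evq j (i x) (i z₀) GR' =
      (i x - j ξ) ^ μ * evq j (i x) (i z₀) (C N₁) := by
    rw [hcompat G GR hGR, hcompat G' GR' hGR', ← hNS, ← map_mul]
    congr 1
    apply Subtype.ext
    rw [← hevC] at hGN
    rw [← hGN, ← hevP, ← hevP]
    rfl
  have he0C : ∀ F : R[X], evq0 ξ ζ (C F) = F.eval ξ := by
    intro F
    simp [evq0]
  obtain ⟨d, H, G₁, hHu, hG1u, hfin⟩ := lem2 (res := res) hinj hx1 hz1 hxξ hΦS hu μ GR GR' (C N₁) hGS
    (by rw [he0C]; exact hN1u)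
  have hne : i x - j ξ ≠ 0 := sub_ne_zero.2 hxξ
  -- nonvanishing
  have hunz : ∀ F : R[X][X], IsUnit (evq0 ξ ζ F) → evq j (i x) (i z₀) F ≠ 0 := by
    intro F hF h0
    have h1 := res_ev j res hx1 hz1 F
    rw [h0, map_zero, hcj] at h1
    exact hF.ne_zero (hρ (by rw [map_zero, ← h1]))
  have hC1 : evq j (i x) (i z₀) (C h₁) ≠ 0 := hunz _ (by rw [he0C]; exact hh1)
  have hπ0 : i (evP (C h)) ≠ 0 := by
    rw [hπS]
    exact mul_ne_zero hne hC1
  have hG0 : i (evP G) ≠ 0 := by
    rw [← hcompat G GR hGR]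
    intro h0
    rw [h0, zero_mul] at hfin
    exact mul_ne_zero (pow_ne_zero _ hne) (hunz _ hG1u) hfin.symm
  have hfin2 : i (evP G) * (evq j (i x) (i z₀) H * evq j (i x) (i z₀) (C h₁) ^ d) =
      i (evP (C h)) ^ d * evq j (i x) (i z₀) G₁ := by
    rw [← hcompat G GR hGR, ← mul_assoc, hfin, hπS, mul_pow]
    ring
  have hG0' : ((evP G : P.ring) : K₁) ≠ 0 := by
    intro h0
    apply hG0
    rw [show evP G = 0 from Subtype.ext h0, map_zero]
  have hπ0' : ((evP (C h) : P.ring) : K₁) ≠ 0 := by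
    intro h0
    apply hπ0
    rw [show evP (C h) = 0 from Subtype.ext h0, map_zero]
  -- the quotient
  have hmem : ((evP G : P.ring) : K₁) * (((evP (C h) : P.ring) : K₁) ^ d)⁻¹ ∈ P.ring := by
    by_contra hn
    have h1 := (P.ring.mem_or_inv_mem (((evP G : P.ring) : K₁) * (((evP (C h) : P.ring) : K₁) ^ d)⁻¹)).resolve_left hn
    rw [mul_inv, inv_inv, mul_comm] at h1
    set w : P.ring := ⟨_, h1⟩ with hw
    have hwn : (w : K₁) ∈ P.ring.nonunits := by
      rw [ValuationSubring.mem_nonunits_iff_or]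
      right
      rw [hw]
      simpa [mul_comm] using hn
    have h2 : evP G * w = evP (C h) ^ d := by
      apply Subtype.ext
      push_cast
      rw [hw]
      field_simp
    have h3 : i (evP G) * (evq j (i x) (i z₀) H * evq j (i x) (i z₀) (C h₁) ^ d) =
        i (evP G) * (i w * evq j (i x) (i z₀) G₁) := by
      rw [hfin2, ← map_pow, ← h2, map_mul, mul_assoc]
    have h4 := congrArg res (mul_left_cancel₀ hG0 h3)
    rw [map_mul, map_mul, hresi' w, hψ.ker _ hwn, zero_mul, ← map_pow, ← map_mul, ← map_mul] at h4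
    rw [res_ev j res hx1 hz1, hcj] at h4
    have h5 : evq0 ξ ζ (H * C h₁ ^ d) = 0 := hρ (by rw [h4, map_zero])
    rw [map_mul, map_pow, he0C] at h5
    exact (hHu.mul (hh1.pow d)).ne_zero h5
  set v : P.ring := ⟨_, hmem⟩ with hv
  have h2 : evP G = v * evP (C h) ^ d := by
    apply Subtype.ext
    push_cast
    rw [hv]
    field_simp
  have h3 : i v * (evq j (i x) (i z₀) H * evq j (i x) (i z₀) (C h₁) ^ d) = evq j (i x) (i z₀) G₁ := by
    apply mul_left_cancel₀ (pow_ne_zero d hπ0)
    rw [← hfin2, h2, map_mul, map_pow]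
    ring
  have h4 := congrArg res h3
  rw [map_mul, hresi' v, ← map_pow, ← map_mul, res_ev j res hx1 hz1, hcj, res_ev j res hx1 hz1,
    hcj, map_mul, map_pow, he0C] at h4
  obtain ⟨t, ht⟩ := hHu.mul (hh1.pow d)
  refine ⟨d, v, evq0 ξ ζ G₁ * (t⁻¹ : Rˣ), hG1u.mul (Units.isUnit _), ?_, ?_⟩
  · rw [map_mul, ← h4, ← ht, mul_assoc, ← map_mul, Units.mul_inv, map_one, mul_one]
  · rw [← hevP, h2, ← hevC]
    push_cast
    rfl

end loc

end Pool.Agent.SE
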